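import Pool.Agent.H925R.Hall.Prop

set_option autoImplicit false

open Finset

namespace Pool.Agent.H925R.Hall

/-- the exceptions with `|x| ≤ X` -/
def Exc (C θ X : ℝ) : Set (ℤ × ℤ) := {e | |(e.1 : ℝ)| ≤ X ∧ e.2 ^ 2 ≠ e.1 ^ 3 ∧
  |(e.2 : ℝ) ^ 2 - (e.1 : ℝ) ^ 3| ≤ C * |(e.1 : ℝ)| ^ θ}

theorem pow_le_X {θ X : ℝ} (h0 : 0 ≤ θ) (h1 : θ ≤ 1 / 2) (hX : 1 ≤ X) {x : ℤ}
    (hx : |(x : ℝ)| ≤ X) : |(x : ℝ)| ^ θ ≤ X := by
  calc |(x : ℝ)| ^ θ ≤ X ^ θ := Real.rpow_le_rpow (abs_nonneg _) hx h0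
    _ ≤ X ^ (1 : ℝ) := Real.rpow_le_rpow_of_exponent_le hX (by linarith)
    _ = X := Real.rpow_one X

theorem abs_le_sq (y : ℤ) : |(y : ℝ)| ≤ (y : ℝ) ^ 2 := by
  have : |y| ≤ y ^ 2 := by
    rcases eq_or_ne y 0 with h | h
    · rw [h]; simp
    · have h1 := Int.one_le_abs h
      rw [← sq_abs]
      nlinarith
  exact_mod_cast this

theorem exc_sub {C θ X : ℝ} (hC : 1 ≤ C) (h0 : 0 ≤ θ) (h1 : θ ≤ 1 / 2) (hX : 1 ≤ X) :
    Exc C θ X ⊆ ((Icc (-⌊X⌋) ⌊X⌋ ×ˢ Icc (-⌊X ^ 3 + C * X⌋) ⌊X ^ 3 + C * X⌋ : Finset (ℤ × ℤ)) :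
      Set (ℤ × ℤ)) := by
  rintro ⟨x, y⟩ ⟨a1, a2, a3⟩
  simp only at a1 a2 a3
  rw [mem_coe, mem_product]
  refine ⟨mem_box a1, mem_box ?_⟩
  refine (abs_le_sq y).trans ?_
  have h2 := pow_le_X h0 h1 hX a1
  have h3 : (x : ℝ) ^ 3 ≤ X ^ 3 := by
    calc (x : ℝ) ^ 3 ≤ |(x : ℝ) ^ 3| := le_abs_self _
      _ = |(x : ℝ)| ^ 3 := abs_pow _ _
      _ ≤ X ^ 3 := by gcongr
  have h4 : C * |(x : ℝ)| ^ θ ≤ C * X := by gcongr
  have h5 := le_abs_self ((y : ℝ) ^ 2 - (x : ℝ) ^ 3)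
  linarith

theorem exc_fin {C θ X : ℝ} (hC : 1 ≤ C) (h0 : 0 ≤ θ) (h1 : θ ≤ 1 / 2) (hX : 1 ≤ X) :
    (Exc C θ X).Finite := Set.Finite.subset (finite_toSet _) (exc_sub hC h0 h1 hX)

theorem dyadic (C : ℝ) (hC : 1 ≤ C) (eps : ℝ) (he : 0 < eps) : ∃ K : ℝ, 0 < K ∧
    ∀ θ : ℝ, 0 ≤ θ → θ ≤ 1 / 2 → ∀ Y : ℝ, (16 * C ^ 2) ^ 6 ≤ Y →
      ((Exc C θ (4 * Y)).ncard : ℝ) ≤ (Exc C θ Y).ncard + K * Y ^ (1 / 4 + θ / 6 + eps) := by
  classical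
  obtain ⟨K1, hK1, hK⟩ := piece (2 * C) (by linarith) eps he
  refine ⟨2 * (K1 * (2 * C) ^ (1 + eps)), by positivity, ?_⟩
  intro θ h0 h1 Y hY
  have hY1 : 1 ≤ Y := by
    have : (1 : ℝ) ≤ (16 * C ^ 2) ^ 6 := one_le_pow₀ (by nlinarith)
    linarith
  have hY0 : 0 < Y := by linarith
  have h2C : 1 ≤ 2 * C := by linarith
  set Δ := C * (4 * Y) ^ θ with hΔ
  have hΔ1 : 1 ≤ Δ := by
    have : 1 ≤ (4 * Y) ^ θ := Real.one_le_rpow (by linarith) h0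
    nlinarith
  have hΔ0 : 0 < Δ := by linarith
  have hΔ2 : Δ ≤ 2 * C * Y ^ θ := by
    rw [hΔ, Real.mul_rpow (by norm_num) hY0.le]
    have h4 : (4 : ℝ) ^ θ ≤ 2 := by
      calc (4 : ℝ) ^ θ ≤ 4 ^ (1 / 2 : ℝ) := Real.rpow_le_rpow_of_exponent_le (by norm_num) h1
        _ = 2 := by
          rw [← Real.sqrt_eq_rpow, show (4 : ℝ) = 2 ^ 2 by norm_num]
          exact Real.sqrt_sq (by norm_num)
    have h5 : 0 ≤ Y ^ θ := by positivity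
    calc C * (4 ^ θ * Y ^ θ) ≤ C * (2 * Y ^ θ) := by gcongr
      _ = 2 * C * Y ^ θ := by ring
  have hYh : Y ^ θ ≤ Y ^ (1 / 2 : ℝ) := Real.rpow_le_rpow_of_exponent_le hY1 h1
  have hΔ3 : Δ ≤ 2 * C * Y ^ (1 / 2 : ℝ) := hΔ2.trans (by gcongr)
  set H := Δ ^ (1 / 3 : ℝ) with hH
  set Q := Y ^ (1 / 4 : ℝ) * Δ ^ (-(1 / 6) : ℝ) with hQ
  have hH3 : H ^ 3 = Δ := by
    rw [hH, ← Real.rpow_natCast, ← Real.rpow_mul hΔ0.le]
    norm_num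
  have hQ0 : 0 < Q := by positivity
  have hH1 : 1 ≤ H := Real.one_le_rpow hΔ1 (by norm_num)
  have hHQ2 : H * Q ^ 2 = √Y := by
    rw [hH, hQ, mul_pow, ← Real.rpow_natCast, ← Real.rpow_natCast, ← Real.rpow_mul hY0.le,
      ← Real.rpow_mul hΔ0.le, Real.sqrt_eq_rpow]
    have : Δ ^ (1 / 3 : ℝ) * (Y ^ ((1 / 4 : ℝ) * (2 : ℕ)) * Δ ^ (-(1 / 6 : ℝ) * (2 : ℕ))) =
        Y ^ ((1 / 4 : ℝ) * (2 : ℕ)) * (Δ ^ (1 / 3 : ℝ) * Δ ^ (-(1 / 6 : ℝ) * (2 : ℕ))) := by ring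
    rw [this, ← Real.rpow_add hΔ0]
    norm_num
  have hHQ : H * Q = Y ^ (1 / 4 : ℝ) * Δ ^ (1 / 6 : ℝ) := by
    rw [hH, hQ]
    have : Δ ^ (1 / 3 : ℝ) * (Y ^ (1 / 4 : ℝ) * Δ ^ (-(1 / 6) : ℝ)) =
        Y ^ (1 / 4 : ℝ) * (Δ ^ (1 / 3 : ℝ) * Δ ^ (-(1 / 6) : ℝ)) := by ring
    rw [this, ← Real.rpow_add hΔ0]
    norm_num
  have hpar : Par (2 * C) H Q := by
    have hd2 : Δ ^ (1 / 2 : ℝ) ≤ 2 * C * Y ^ (1 / 4 : ℝ) := by
      calc Δ ^ (1 / 2 : ℝ) ≤ (2 * C * Y ^ (1 / 2 : ℝ)) ^ (1 / 2 : ℝ) := by gcongr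
        _ = (2 * C) ^ (1 / 2 : ℝ) * Y ^ (1 / 4 : ℝ) := by
          rw [Real.mul_rpow (by positivity) (by positivity), ← Real.rpow_mul hY0.le]
          norm_num
        _ ≤ (2 * C) ^ (1 : ℝ) * Y ^ (1 / 4 : ℝ) := by
          gcongr
          norm_num
        _ = 2 * C * Y ^ (1 / 4 : ℝ) := by rw [Real.rpow_one]
    have hQlow : 8 * C ≤ Q := by
      have h5 : Δ ^ (1 / 6 : ℝ) ≤ 2 * C * Y ^ (1 / 12 : ℝ) := by
        calc Δ ^ (1 / 6 : ℝ) ≤ (2 * C * Y ^ (1 / 2 : ℝ)) ^ (1 / 6 : ℝ) := by gcongr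
          _ = (2 * C) ^ (1 / 6 : ℝ) * Y ^ (1 / 12 : ℝ) := by
            rw [Real.mul_rpow (by positivity) (by positivity), ← Real.rpow_mul hY0.le]
            norm_num
          _ ≤ (2 * C) ^ (1 : ℝ) * Y ^ (1 / 12 : ℝ) := by
            gcongr
            norm_num
          _ = 2 * C * Y ^ (1 / 12 : ℝ) := by rw [Real.rpow_one]
      have h6 : Q * Δ ^ (1 / 6 : ℝ) = Y ^ (1 / 4 : ℝ) := by
        rw [hQ, mul_assoc, ← Real.rpow_add hΔ0]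
        norm_num
      have h7 : Y ^ (1 / 4 : ℝ) = Y ^ (1 / 6 : ℝ) * Y ^ (1 / 12 : ℝ) := by
        rw [← Real.rpow_add hY0]; norm_num
      have h8 : 16 * C ^ 2 ≤ Y ^ (1 / 6 : ℝ) := by
        calc 16 * C ^ 2 = ((16 * C ^ 2) ^ 6) ^ (1 / 6 : ℝ) := by
              rw [← Real.rpow_natCast (16 * C ^ 2) 6, ← Real.rpow_mul (by positivity)]
              norm_num
          _ ≤ Y ^ (1 / 6 : ℝ) := by gcongr
      have h9 : (16 * C ^ 2) * Y ^ (1 / 12 : ℝ) ≤ Q * (2 * C * Y ^ (1 / 12 : ℝ)) := by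
        calc (16 * C ^ 2) * Y ^ (1 / 12 : ℝ) ≤ Y ^ (1 / 6 : ℝ) * Y ^ (1 / 12 : ℝ) := by gcongr
          _ = Q * Δ ^ (1 / 6 : ℝ) := by rw [← h7, h6]
          _ ≤ Q * (2 * C * Y ^ (1 / 12 : ℝ)) := by gcongr
      have h10 : (8 * C) * (2 * C * Y ^ (1 / 12 : ℝ)) ≤ Q * (2 * C * Y ^ (1 / 12 : ℝ)) := by
        linarith
      exact le_of_mul_le_mul_right h10 (by positivity)
    refine ⟨h2C, hH1, ?_, by linarith, ?_⟩
    · rw [hQ]
      have h5 : Δ ^ (1 / 3 : ℝ) = Δ ^ (1 / 2 : ℝ) * Δ ^ (-(1 / 6) : ℝ) := by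
        rw [← Real.rpow_add hΔ0]; norm_num
      rw [hH, h5]
      calc Δ ^ (1 / 2 : ℝ) * Δ ^ (-(1 / 6) : ℝ) ≤ (2 * C * Y ^ (1 / 4 : ℝ)) * Δ ^ (-(1 / 6) : ℝ) := by
            gcongr
        _ = 2 * C * (Y ^ (1 / 4 : ℝ) * Δ ^ (-(1 / 6) : ℝ)) := by ring
    · have : (8 * C) ^ 3 ≤ Q ^ 3 := by gcongr
      have h6 : C ≤ C ^ 3 := by
        calc C = C ^ 1 := by ring
          _ ≤ C ^ 3 := pow_le_pow_right₀ hC (by norm_num)
      nlinarith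
  have hHQb : (H * Q) ^ (1 + eps) ≤ (2 * C) ^ (1 + eps) * Y ^ (1 / 4 + θ / 6 + eps) := by
    have h5 : H * Q ≤ 2 * C * Y ^ (1 / 4 + θ / 6) := by
      rw [hHQ]
      calc Y ^ (1 / 4 : ℝ) * Δ ^ (1 / 6 : ℝ) ≤ Y ^ (1 / 4 : ℝ) * (2 * C * Y ^ θ) ^ (1 / 6 : ℝ) := by
            gcongr
        _ = (2 * C) ^ (1 / 6 : ℝ) * (Y ^ (1 / 4 : ℝ) * Y ^ (θ * (1 / 6))) := by
            rw [Real.mul_rpow (by positivity) (by positivity), ← Real.rpow_mul hY0.le]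
            ring
        _ ≤ (2 * C) ^ (1 : ℝ) * (Y ^ (1 / 4 : ℝ) * Y ^ (θ * (1 / 6))) := by
            gcongr
            norm_num
        _ = 2 * C * Y ^ (1 / 4 + θ / 6) := by
            rw [Real.rpow_one, ← Real.rpow_add hY0]
            congr 2
            ring
    calc (H * Q) ^ (1 + eps) ≤ (2 * C * Y ^ (1 / 4 + θ / 6)) ^ (1 + eps) := by
          apply Real.rpow_le_rpow (by positivity) h5 (by positivity)
      _ = (2 * C) ^ (1 + eps) * Y ^ ((1 / 4 + θ / 6) * (1 + eps)) := by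
          rw [Real.mul_rpow (by positivity) (by positivity), ← Real.rpow_mul hY0.le]
      _ ≤ (2 * C) ^ (1 + eps) * Y ^ (1 / 4 + θ / 6 + eps) := by
          gcongr
          nlinarith
  -- the sets
  have hf4 := exc_fin hC h0 h1 (show (1:ℝ) ≤ 4 * Y by linarith)
  have hf1 := exc_fin hC h0 h1 hY1
  set F := hf4.toFinset with hF
  have hmemF : ∀ e, e ∈ F ↔ e ∈ Exc C θ (4 * Y) := fun e => hf4.mem_toFinset
  set A1 := F.filter (fun e => Y < (e.1 : ℝ) ∧ 0 < e.2) with hA1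
  set A2 := F.filter (fun e => Y < (e.1 : ℝ) ∧ e.2 < 0) with hA2
  have hbig : ∀ x : ℤ, Y < |(x : ℝ)| → C * |(x : ℝ)| ^ θ < |(x : ℝ)| ^ 3 := by
    intro x hx
    have hx1 : 1 < |(x : ℝ)| := by linarith
    have hCY : C ≤ Y := by
      have h5 : C ≤ 16 * C ^ 2 := by nlinarith
      have h6 : 16 * C ^ 2 ≤ (16 * C ^ 2) ^ 6 := by
        calc 16 * C ^ 2 = (16 * C ^ 2) ^ 1 := by ring
          _ ≤ (16 * C ^ 2) ^ 6 := pow_le_pow_right₀ (by nlinarith) (by norm_num)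
      linarith
    have h7 : |(x : ℝ)| ^ θ ≤ |(x : ℝ)| := by
      calc |(x : ℝ)| ^ θ ≤ |(x : ℝ)| ^ (1 : ℝ) :=
            Real.rpow_le_rpow_of_exponent_le hx1.le (by linarith)
        _ = |(x : ℝ)| := Real.rpow_one _
    calc C * |(x : ℝ)| ^ θ ≤ C * |(x : ℝ)| := by gcongr
      _ < |(x : ℝ)| * |(x : ℝ)| := by
          have : C < |(x : ℝ)| := by linarith
          nlinarith
      _ ≤ |(x : ℝ)| ^ 3 := by nlinarith [sq_nonneg (|(x : ℝ)|)]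
  have hcov : F ⊆ (hf1.toFinset ∪ A1) ∪ A2 := by
    intro e he
    obtain ⟨e1, e2, e3⟩ := (hmemF e).mp he
    rw [mem_union, mem_union]
    by_cases hx : |(e.1 : ℝ)| ≤ Y
    · left; left
      rw [hf1.mem_toFinset]
      exact ⟨hx, e2, e3⟩
    · push Not at hx
      have hb := hbig e.1 hx
      have hxpos : 0 < (e.1 : ℝ) := by
        by_contra hc
        push Not at hc
        rw [abs_of_nonpos hc] at hb e3
        have h5 := le_abs_self ((e.2 : ℝ) ^ 2 - (e.1 : ℝ) ^ 3)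
        have h6 : (-(e.1 : ℝ)) ^ 3 = -(e.1 : ℝ) ^ 3 := by ring
        rw [h6] at hb
        have : 0 ≤ (e.2 : ℝ) ^ 2 := by positivity
        linarith
      rw [abs_of_pos hxpos] at hx hb e3
      have hy : e.2 ≠ 0 := by
        intro hy
        rw [hy] at e3
        have h5 : |((0 : ℤ) : ℝ) ^ 2 - (e.1 : ℝ) ^ 3| = (e.1 : ℝ) ^ 3 := by
          push_cast
          rw [show ((0:ℝ) ^ 2 - (e.1 : ℝ) ^ 3) = -(e.1 : ℝ) ^ 3 by ring, abs_neg,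
            abs_of_pos (by positivity)]
        rw [h5] at e3
        linarith
      rcases lt_or_gt_of_ne hy with h | h
      · right
        exact mem_filter.mpr ⟨he, hx, h⟩
      · left; right
        exact mem_filter.mpr ⟨he, hx, h⟩
  have hreg : ∀ x y : ℤ, (x, y) ∈ Exc C θ (4 * Y) → Y < (x : ℝ) → 0 < y → Reg H Q x y := by
    intro x y hxy hx hy
    obtain ⟨e1, e2, e3⟩ := hxy
    simp only at e1 e2 e3
    have hxpos : 0 < (x : ℝ) := by linarith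
    rw [abs_of_pos hxpos] at e1 e3
    refine ⟨?_, ?_, hy, fun h => e2 h.symm, ?_⟩
    · rw [hHQ2]
      exact Real.sqrt_le_sqrt hx.le
    · rw [mul_assoc, hHQ2]
      have : √(4 * Y) = 2 * √Y := by
        rw [Real.sqrt_mul (by norm_num), show (4 : ℝ) = 2 ^ 2 by norm_num,
          Real.sqrt_sq (by norm_num)]
      rw [← this]
      exact Real.sqrt_le_sqrt e1
    · rw [hH3, abs_sub_comm]
      refine e3.trans ?_
      rw [hΔ]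
      gcongr
  have hc1 : (A1.card : ℝ) ≤ K1 * (H * Q) ^ (1 + eps) := by
    apply hK H Q hpar
    intro e he
    obtain ⟨e1, e2, e3⟩ := mem_filter.mp he
    exact hreg e.1 e.2 ((hmemF _).mp e1) e2 e3
  have hc2 : (A2.card : ℝ) ≤ K1 * (H * Q) ^ (1 + eps) := by
    have hinj : Set.InjOn (fun e : ℤ × ℤ => (e.1, -e.2)) (A2 : Set (ℤ × ℤ)) := by
      intro e _ e' _ h
      simp only [Prod.mk.injEq, neg_inj] at h
      exact Prod.ext h.1 h.2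
    rw [← card_image_of_injOn hinj]
    apply hK H Q hpar
    intro e he
    obtain ⟨t, ht, rfl⟩ := mem_image.mp he
    obtain ⟨e1, e2, e3⟩ := mem_filter.mp ht
    obtain ⟨f1, f2, f3⟩ := (hmemF _).mp e1
    apply hreg
    · refine ⟨f1, ?_, ?_⟩
      · simp only [neg_sq]; exact f2
      · push_cast
        rw [neg_sq]; exact f3
    · exact e2
    · simp only; omega
  have hn4 : (Exc C θ (4 * Y)).ncard = F.card := Set.ncard_eq_toFinset_card _ hf4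
  have hn1 : (Exc C θ Y).ncard = hf1.toFinset.card := Set.ncard_eq_toFinset_card _ hf1
  rw [hn4, hn1]
  have hle : F.card ≤ hf1.toFinset.card + A1.card + A2.card := by
    have g1 := card_le_card hcov
    have g2 := card_union_le (hf1.toFinset ∪ A1) A2
    have g3 := card_union_le hf1.toFinset A1
    omega
  have hleR : (F.card : ℝ) ≤ hf1.toFinset.card + A1.card + A2.card := by exact_mod_cast hle
  have hK1b : K1 * (H * Q) ^ (1 + eps) ≤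
      K1 * ((2 * C) ^ (1 + eps) * Y ^ (1 / 4 + θ / 6 + eps)) := by gcongr
  have : 2 * (K1 * (2 * C) ^ (1 + eps)) * Y ^ (1 / 4 + θ / 6 + eps) =
      2 * (K1 * ((2 * C) ^ (1 + eps) * Y ^ (1 / 4 + θ / 6 + eps))) := by ring
  rw [this]
  linarith

/-- Main theorem. -/
theorem main (C : ℝ) (eps : ℝ) (he : 0 < eps) : ∃ K : ℝ, ∀ θ : ℝ, 0 ≤ θ → θ ≤ 1 / 2 →
    ∀ X : ℝ, 1 ≤ X → (Exc C θ X).Finite ∧
      ((Exc C θ X).ncard : ℝ) ≤ K * X ^ (1 / 4 + θ / 6 + eps) := by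
  -- reduce to `C ≥ 1`
  suffices hmain : ∀ C : ℝ, 1 ≤ C → ∃ K : ℝ, ∀ θ : ℝ, 0 ≤ θ → θ ≤ 1 / 2 →
      ∀ X : ℝ, 1 ≤ X → (Exc C θ X).Finite ∧
      ((Exc C θ X).ncard : ℝ) ≤ K * X ^ (1 / 4 + θ / 6 + eps) by
    obtain ⟨K, hK⟩ := hmain (max C 1) (le_max_right _ _)
    refine ⟨K, fun θ h0 h1 X hX => ?_⟩
    obtain ⟨k1, k2⟩ := hK θ h0 h1 X hX
    have hsub : Exc C θ X ⊆ Exc (max C 1) θ X := by
      rintro e ⟨e1, e2, e3⟩
      refine ⟨e1, e2, e3.trans ?_⟩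
      have : 0 ≤ |(e.1 : ℝ)| ^ θ := by positivity
      have : C ≤ max C 1 := le_max_left _ _
      gcongr
    refine ⟨k1.subset hsub, le_trans ?_ k2⟩
    exact_mod_cast Set.ncard_le_ncard hsub k1
  intro C hC
  obtain ⟨K2, hK2, hdy⟩ := dyadic C hC eps he
  set X0 : ℝ := (16 * C ^ 2) ^ 6 with hX0
  have hX01 : 1 ≤ X0 := one_le_pow₀ (by nlinarith)
  set N0 : ℕ := (Icc (-⌊X0⌋) ⌊X0⌋ ×ˢ Icc (-⌊X0 ^ 3 + C * X0⌋) ⌊X0 ^ 3 + C * X0⌋ :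
    Finset (ℤ × ℤ)).card with hN0
  set K := (3 * K2 + N0) with hKdef
  have hK0 : 0 < K := by positivity
  refine ⟨K * (4 * X0) ^ (1 + eps), fun θ h0 h1 X hX => ⟨exc_fin hC h0 h1 hX, ?_⟩⟩
  set a := 1 / 4 + θ / 6 + eps with ha
  have ha0 : 0 < a := by positivity
  have h4a : (4 / 3 : ℝ) ≤ 4 ^ a := by
    calc (4 / 3 : ℝ) ≤ √2 := by
          apply Real.le_sqrt_of_sq_le; norm_num
      _ = 4 ^ (1 / 4 : ℝ) := by
          rw [Real.sqrt_eq_rpow, show (4 : ℝ) = 2 ^ (2 : ℝ) by norm_num,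
            ← Real.rpow_mul (by norm_num)]
          norm_num
      _ ≤ 4 ^ a := Real.rpow_le_rpow_of_exponent_le (by norm_num) (by rw [ha]; linarith)
  have hind : ∀ n : ℕ, ((Exc C θ (X0 * 4 ^ n)).ncard : ℝ) ≤ K * (X0 * 4 ^ n) ^ a := by
    intro n
    induction n with
    | zero =>
      rw [pow_zero, mul_one]
      have h5 : (Exc C θ X0).ncard ≤ N0 := by
        have := Set.ncard_le_ncard (exc_sub hC h0 h1 hX01) (finite_toSet _)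
        rwa [Set.ncard_coe_finset] at this
      have h6 : ((Exc C θ X0).ncard : ℝ) ≤ N0 := by exact_mod_cast h5
      have h7 : 1 ≤ X0 ^ a := Real.one_le_rpow hX01 ha0.le
      have h8 : (N0 : ℝ) ≤ K := by rw [hKdef]; linarith
      nlinarith
    | succ n ih =>
      have hYn : X0 ≤ X0 * 4 ^ n := by
        have : (1 : ℝ) ≤ 4 ^ n := one_le_pow₀ (by norm_num)
        nlinarith
      have hstep := hdy θ h0 h1 (X0 * 4 ^ n) hYn
      have e1 : X0 * 4 ^ (n + 1) = 4 * (X0 * 4 ^ n) := by ring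
      rw [e1, Real.mul_rpow (by norm_num) (by positivity)]
      have h5 : 0 < (X0 * 4 ^ n) ^ a := by positivity
      have h6 : 3 * K2 ≤ K := by rw [hKdef]; have : (0:ℝ) ≤ N0 := by positivity
                                 linarith
      calc ((Exc C θ (4 * (X0 * 4 ^ n))).ncard : ℝ)
          ≤ (Exc C θ (X0 * 4 ^ n)).ncard + K2 * (X0 * 4 ^ n) ^ a := hstep
        _ ≤ K * (X0 * 4 ^ n) ^ a + K2 * (X0 * 4 ^ n) ^ a := by linarith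
        _ ≤ K * (X0 * 4 ^ n) ^ a + (K / 3) * (X0 * 4 ^ n) ^ a := by
            have : K2 ≤ K / 3 := by linarith
            gcongr
        _ = K * ((4 / 3) * (X0 * 4 ^ n) ^ a) := by ring
        _ ≤ K * (4 ^ a * (X0 * 4 ^ n) ^ a) := by gcongr
  obtain ⟨n, hn1, hn2⟩ := exists_nat_pow_near hX (by norm_num : (1:ℝ) < 4)
  have hXle : X ≤ X0 * 4 ^ (n + 1) := by
    have : (4:ℝ) ^ (n + 1) ≤ X0 * 4 ^ (n + 1) := by
      have : (0 : ℝ) < 4 ^ (n + 1) := by positivity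
      nlinarith
    linarith
  have hsub : Exc C θ X ⊆ Exc C θ (X0 * 4 ^ (n + 1)) := by
    rintro e ⟨e1, e2, e3⟩
    exact ⟨e1.trans hXle, e2, e3⟩
  have hfin : (Exc C θ (X0 * 4 ^ (n + 1))).Finite := exc_fin hC h0 h1 (hX.trans hXle)
  have hle : ((Exc C θ X).ncard : ℝ) ≤ (Exc C θ (X0 * 4 ^ (n + 1))).ncard := by
    exact_mod_cast Set.ncard_le_ncard hsub hfin
  refine hle.trans ((hind (n + 1)).trans ?_)
  have h9 : X0 * 4 ^ (n + 1) ≤ (4 * X0) * X := by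
    rw [pow_succ]; nlinarith
  calc K * (X0 * 4 ^ (n + 1)) ^ a ≤ K * ((4 * X0) * X) ^ a := by gcongr
    _ = K * ((4 * X0) ^ a * X ^ a) := by rw [Real.mul_rpow (by positivity) (by positivity)]
    _ ≤ K * ((4 * X0) ^ (1 + eps) * X ^ a) := by
        gcongr
        · linarith
        · linarith
    _ = K * (4 * X0) ^ (1 + eps) * X ^ a := by ring

end Pool.Agent.H925R.Hall
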