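import Pool.Agent.H925R.Hall.Cases

set_option autoImplicit false

open Finset

namespace Pool.Agent.H925R.Hall

variable {C H Q : ℝ}

theorem case2 (hp : Par C H Q) (T : Sys Q) (D : ℕ)
    (hD : ∀ n : ℕ, 1 ≤ n → (n : ℝ) ≤ 792 * (H * Q) ^ 4 → n.divisors.card ≤ D) (j : ℕ)
    (S : Finset (ℤ × ℤ)) (hS : ∀ e ∈ S, Reg H Q e.1 e.2) (hj : ∀ e ∈ S, T.j e.1 = j)
    (hz0 : ∀ e ∈ S, G0 e.1 e.2 (T.p e.1) (T.q e.1) ≠ 0)
    (hz : ∀ e ∈ S, G0 e.1 e.2 (T.p e.1) (T.q e.1) * (T.q' e.1) ^ 4 ≠ 1) :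
    (S.card : ℝ) ≤ (10 : ℝ) ^ 14 * C ^ 2 * (H * Q) * D := by
  classical
  have hH := hp.hH
  have hQ2 := hp.hQ2
  have hC := hp.hC
  have hZ : 2 ≤ H * Q := by nlinarith
  set l := lam j with hldef
  have hl : 0 < l := lam_pos j
  have hl2 : 1 / 2 ≤ l ^ 2 := lam_sq_ge j
  have hinv := inv_l hl hl2
  have hlge : 2 / 3 ≤ l := by
    rw [div_le_iff₀ hl] at hinv
    linarith
  set A := 33 * H / l ^ 4 with hA
  set B := 2 * l * Q with hB
  have hA0 : 0 ≤ A := by positivity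
  have hB0 : 0 ≤ B := by positivity
  set R1 := 44352 * C with hR1
  set R2 := 76032 * C * l with hR2
  -- keys
  set φ : ℤ × ℤ → (ℤ × ℤ) × ℤ := fun e =>
    ((G0 e.1 e.2 (T.p e.1) (T.q e.1), T.q' e.1), T.q e.1) with hφ
  have fact : ∀ e ∈ S, |((G0 e.1 e.2 (T.p e.1) (T.q e.1) : ℤ) : ℝ)| ≤ A ∧
      |(T.q' e.1 : ℝ)| ≤ B ∧ T.q e.1 ∣ G0 e.1 e.2 (T.p e.1) (T.q e.1) * (T.q' e.1) ^ 4 - 1 := by
    intro e he
    have hr := hS e he
    have hred := T.red e.1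
    rw [hj e he] at hred
    refine ⟨G0_bound hp hr hl hred, hred.h4, ?_⟩
    have rel := G_rel e.1 e.2 (T.p e.1) (T.q e.1) (T.p' e.1) (T.q' e.1)
    rw [hred.det] at rel
    exact ⟨4 * G1 e.1 e.2 (T.p e.1) (T.q e.1) (T.p' e.1) (T.q' e.1) * T.q' e.1 ^ 3
      - 6 * G2 e.1 e.2 (T.p e.1) (T.q e.1) (T.p' e.1) (T.q' e.1) * T.q' e.1 ^ 2 * T.q e.1
      + 4 * G1 e.1 e.2 (T.p' e.1) (T.q' e.1) (T.p e.1) (T.q e.1) * T.q' e.1 * T.q e.1 ^ 2
      - G0 e.1 e.2 (T.p' e.1) (T.q' e.1) * T.q e.1 ^ 3, by linear_combination rel⟩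
  have hsub : S.image φ ⊆ ((((Icc (-⌊A⌋) ⌊A⌋).erase 0) ×ˢ Icc (-⌊B⌋) ⌊B⌋).filter
      (fun t => t.1 * t.2 ^ 4 - 1 ≠ 0)).biUnion
      (fun t => ((t.1 * t.2 ^ 4 - 1).natAbs.divisors).image (fun d : ℕ => (t, (d : ℤ)))) := by
    intro t ht
    obtain ⟨e, he, rfl⟩ := mem_image.mp ht
    obtain ⟨f1, f2, f3⟩ := fact e he
    have hne : G0 e.1 e.2 (T.p e.1) (T.q e.1) * (T.q' e.1) ^ 4 - 1 ≠ 0 := by
      have := hz e he
      omega
    rw [mem_biUnion]
    refine ⟨(G0 e.1 e.2 (T.p e.1) (T.q e.1), T.q' e.1), ?_, ?_⟩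
    · rw [mem_filter, mem_product]
      exact ⟨⟨mem_box0 f1 (hz0 e he), mem_box f2⟩, hne⟩
    · rw [mem_image]
      refine ⟨(T.q e.1).natAbs, ?_, ?_⟩
      · rw [Nat.mem_divisors]
        exact ⟨Int.natAbs_dvd_natAbs.mpr f3, Int.natAbs_ne_zero.mpr hne⟩
      · simp only [hφ, Prod.mk.injEq, true_and]
        exact Int.natAbs_of_nonneg (T.q0 e.1)
  have hcardim : (S.image φ).card ≤ (((Icc (-⌊A⌋) ⌊A⌋).erase 0) ×ˢ Icc (-⌊B⌋) ⌊B⌋).card * D := by
    refine (card_le_card hsub).trans ?_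
    refine le_trans (card_biUnion_le_card_mul _ _ D ?_) ?_
    · intro t ht
      rw [mem_filter, mem_product] at ht
      obtain ⟨⟨t1, t2⟩, t3⟩ := ht
      refine card_image_le.trans ?_
      apply hD
      · have := Int.natAbs_pos.mpr t3
        omega
      · rw [Nat.cast_natAbs]
        have h1 : |(t.1 : ℝ)| ≤ A := by
          have h3 := Int.floor_le A
          have := mem_Icc.mp (mem_erase.mp t1).2
          rw [abs_le]
          constructor
          · have : (-(⌊A⌋ : ℝ)) ≤ t.1 := by exact_mod_cast this.1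
            linarith
          · have : (t.1 : ℝ) ≤ ⌊A⌋ := by exact_mod_cast this.2
            linarith
        have h2 : |(t.2 : ℝ)| ≤ B := by
          have h3 := Int.floor_le B
          have := mem_Icc.mp t2
          rw [abs_le]
          constructor
          · have : (-(⌊B⌋ : ℝ)) ≤ t.2 := by exact_mod_cast this.1
            linarith
          · have : (t.2 : ℝ) ≤ ⌊B⌋ := by exact_mod_cast this.2
            linarith
        push_cast
        calc |(t.1 : ℝ) * t.2 ^ 4 - 1| ≤ |(t.1 : ℝ) * t.2 ^ 4| + |(1 : ℝ)| := abs_sub _ _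
          _ = |(t.1 : ℝ)| * |(t.2 : ℝ)| ^ 4 + 1 := by rw [abs_mul, abs_pow, abs_one]
          _ ≤ A * B ^ 4 + 1 := by gcongr
          _ = 528 * H * Q ^ 4 + 1 := by
              rw [hA, hB]; field_simp; ring
          _ ≤ 792 * (H * Q) ^ 4 := by
              have h5 : H * Q ^ 4 ≤ (H * Q) ^ 4 := by
                have : H ≤ H ^ 4 := by
                  calc H = H ^ 1 := by ring
                    _ ≤ H ^ 4 := pow_le_pow_right₀ hH (by norm_num)
                rw [mul_pow]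
                gcongr
              have h6 : 1 ≤ (H * Q) ^ 4 := one_le_pow₀ (by linarith)
              linarith
    · exact Nat.mul_le_mul_right _ (card_filter_le _ _)
  -- fibres
  have hfib : ∀ t ∈ S.image φ, (S.filter (fun e => φ e = t)).card ≤
      (Icc (-⌊R1⌋) ⌊R1⌋ ×ˢ Icc (-⌊R2⌋) ⌊R2⌋).card := by
    intro t ht
    obtain ⟨e0, he0, rfl⟩ := mem_image.mp ht
    have hrel : ∀ e ∈ S.filter (fun e => φ e = φ e0), ∃ r1 r2 : ℤ, |(r1 : ℝ)| ≤ R1 ∧
        |(r2 : ℝ)| ≤ R2 ∧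
        4 * (G1 e.1 e.2 (T.p e.1) (T.q e0.1) (T.p' e.1) (T.q' e0.1) -
          G1 e0.1 e0.2 (T.p e0.1) (T.q e0.1) (T.p' e0.1) (T.q' e0.1)) = T.q e0.1 * r1 ∧
        6 * (G2 e.1 e.2 (T.p e.1) (T.q e0.1) (T.p' e.1) (T.q' e0.1) -
          G2 e0.1 e0.2 (T.p e0.1) (T.q e0.1) (T.p' e0.1) (T.q' e0.1)) =
          T.q e0.1 * r2 + T.q' e0.1 * r1 := by
      intro e he
      obtain ⟨heS, hee⟩ := mem_filter.mp he
      simp only [hφ, Prod.mk.injEq] at hee
      obtain ⟨⟨h1, h2⟩, h3⟩ := hee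
      have hred := T.red e.1
      have hred0 := T.red e0.1
      rw [hj e heS, h2, h3] at hred
      rw [hj e0 he0] at hred0
      rw [h3] at h1
      exact pair_lemma hp (hS e heS) (hS e0 he0) hl hl2 (T.qpos hp e0.1) hred hred0 h1
    choose! r1 r2 hr1 hr2 hr3 hr4 using hrel
    have hinj : Set.InjOn (fun e => (r1 e, r2 e)) (S.filter (fun e => φ e = φ e0) : Finset _) := by
      intro e he e1 he1 hee
      simp only [Prod.mk.injEq] at hee
      obtain ⟨k1, k2⟩ := hee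
      have m3 := hr3 e he
      have m4 := hr4 e he
      have n3 := hr3 e1 he1
      have n4 := hr4 e1 he1
      rw [k1] at m3 m4
      rw [k2] at m4
      obtain ⟨heS, hee⟩ := mem_filter.mp (mem_coe.mp he)
      obtain ⟨heS1, hee1⟩ := mem_filter.mp (mem_coe.mp he1)
      simp only [hφ, Prod.mk.injEq] at hee hee1
      obtain ⟨⟨h1, h2⟩, h3⟩ := hee
      obtain ⟨⟨h1', h2'⟩, h3'⟩ := hee1
      have hred := T.red e.1
      have hred1 := T.red e1.1
      have hqp := T.qpos hp e0.1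
      rw [hj e heS] at hred
      have hf := f_ne hp (hS e heS) hl hl2 (T.q0 e.1) hred
      rw [h2, h3] at hred
      rw [h2', h3'] at hred1
      rw [h3] at hf h1
      rw [h3'] at h1'
      have := recover e.1 e.2 (T.p e.1) (T.q e0.1) (T.p' e.1) (T.q' e0.1) e1.1 e1.2 (T.p e1.1)
        (T.p' e1.1) hred.det hred1.det hqp.ne' hf (by rw [h1, h1'])
        (by linarith) (by linarith)
      exact Prod.ext this.1 this.2
    have := card_image_of_injOn hinj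
    rw [← this]
    apply card_le_card
    intro t ht
    obtain ⟨e, he, rfl⟩ := mem_image.mp ht
    exact mem_product.mpr ⟨mem_box (hr1 e he), mem_box (hr2 e he)⟩
  have hmain := card_le_mul_card_image (f := φ) S _ hfib
  have c1 : (((Icc (-⌊A⌋) ⌊A⌋).erase 0).card : ℝ) ≤ 2 * A := card_box0 A hA0
  have c2 : ((Icc (-⌊B⌋) ⌊B⌋).card : ℝ) ≤ 3 * B := by
    have := card_box B hB0
    have hB1 : 1 ≤ B := by rw [hB]; nlinarith
    linarith
  have c3 : ((Icc (-⌊R1⌋) ⌊R1⌋).card : ℝ) ≤ 3 * R1 := by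
    have := card_box R1 (by positivity)
    have hB1 : 1 ≤ R1 := by rw [hR1]; nlinarith
    linarith
  have c4 : ((Icc (-⌊R2⌋) ⌊R2⌋).card : ℝ) ≤ 3 * R2 := by
    have := card_box R2 (by positivity)
    have hB1 : 1 ≤ R2 := by rw [hR2]; nlinarith
    linarith
  have hfinal : (S.card : ℝ) ≤ ((3 * R1) * (3 * R2)) * (((2 * A) * (3 * B)) * D) := by
    calc (S.card : ℝ) ≤ ((Icc (-⌊R1⌋) ⌊R1⌋ ×ˢ Icc (-⌊R2⌋) ⌊R2⌋).card : ℝ) *
          ((((Icc (-⌊A⌋) ⌊A⌋).erase 0) ×ˢ Icc (-⌊B⌋) ⌊B⌋).card * D) := by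
            exact_mod_cast hmain.trans (Nat.mul_le_mul_left _ hcardim)
      _ ≤ _ := by
            rw [card_product, card_product]
            push_cast
            gcongr
  refine hfinal.trans ?_
  have e1 : ((3 * R1) * (3 * R2)) * (((2 * A) * (3 * B)) * D) =
      (9 * 44352 * 76032 * 6 * 66) * C ^ 2 * (H * Q) * D * (1 / l ^ 2) := by
    rw [hR1, hR2, hA, hB]
    field_simp
    ring
  rw [e1]
  have e2 : 1 / l ^ 2 ≤ 2 := by
    rw [div_le_iff₀ (by positivity)]; linarith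
  have e3 : 0 ≤ C ^ 2 * (H * Q) * D := by positivity
  calc (9 * 44352 * 76032 * 6 * 66) * C ^ 2 * (H * Q) * D * (1 / l ^ 2)
      ≤ (9 * 44352 * 76032 * 6 * 66) * C ^ 2 * (H * Q) * D * 2 := by gcongr
    _ ≤ (10 : ℝ) ^ 14 * C ^ 2 * (H * Q) * D := by nlinarith

end Pool.Agent.H925R.Hall
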