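import Pool.Agent.H925R.Hall.Main
import Pool.Agent.H510R2.Div

set_option autoImplicit false

open Finset

namespace Pool.Agent.H925R.Hall

theorem j_bound {C H Q : ℝ} (hp : Par C H Q) (T : Sys Q) (d : ℝ) (hd : 0 < d) {x y : ℤ}
    (hr : Reg H Q x y) (h0 : G0 x y (T.p x) (T.q x) ≠ 0) :
    (T.j x : ℝ) ≤ (132 * (H * Q)) ^ d / d := by
  have hH := hp.hH
  have hQ2 := hp.hQ2
  have hl := lam_pos (T.j x)
  have hls := lam_sq (T.j x)
  have hb := G0_bound hp hr hl (T.red x)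
  have h1 : (1 : ℝ) ≤ |((G0 x y (T.p x) (T.q x) : ℤ) : ℝ)| := by
    have : (1 : ℤ) ≤ |G0 x y (T.p x) (T.q x)| := Int.one_le_abs h0
    exact_mod_cast this
  have h2 := h1.trans hb
  rw [le_div_iff₀ (by positivity), one_mul] at h2
  have h3 : lam (T.j x) ^ 4 = (4 : ℝ) ^ (T.j x) / 4 := by
    have : lam (T.j x) ^ 4 = (lam (T.j x) ^ 2) ^ 2 := by ring
    rw [this, hls]
    have h4 : (4 : ℝ) ^ (T.j x) = ((2 : ℝ) ^ (T.j x)) ^ 2 := by
      rw [← pow_mul, mul_comm, pow_mul]; norm_num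
    rw [h4]; ring
  rw [h3] at h2
  have h4 : (4 : ℝ) ^ (T.j x) ≤ 132 * (H * Q) := by nlinarith
  have h5 : (T.j x : ℝ) * Real.log 4 ≤ Real.log (132 * (H * Q)) := by
    rw [← Real.log_pow]
    exact Real.log_le_log (by positivity) h4
  have h6 : (1 : ℝ) ≤ Real.log 4 := by
    have : Real.log 4 = 2 * Real.log 2 := by
      rw [show (4 : ℝ) = 2 ^ 2 by norm_num, Real.log_pow]; norm_num
    rw [this]
    have := Real.log_two_gt_d9
    linarith
  have h7 : (T.j x : ℝ) ≤ Real.log (132 * (H * Q)) := by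
    have : (0 : ℝ) ≤ T.j x := by positivity
    nlinarith
  exact h7.trans (Real.log_le_rpow_div (by positivity) hd)

/-- the count on one dyadic piece -/
theorem piece (C : ℝ) (hC : 1 ≤ C) (eps : ℝ) (he : 0 < eps) : ∃ K : ℝ, 0 < K ∧
    ∀ H Q : ℝ, Par C H Q → ∀ S : Finset (ℤ × ℤ), (∀ e ∈ S, Reg H Q e.1 e.2) →
      (S.card : ℝ) ≤ K * (H * Q) ^ (1 + eps) := by
  classical
  set d := eps / 5 with hd
  have hd0 : 0 < d := by positivity
  obtain ⟨K0, hK0, hK⟩ := Pool.Agent.H510R2.divisor_bound d hd0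
  refine ⟨(2 * 10 ^ 14 * C ^ 2) * (K0 * 792 ^ d) * (132 ^ d / d + 1), by positivity, ?_⟩
  intro H Q hp S hS
  have hH := hp.hH
  have hQ2 := hp.hQ2
  have hZ : 2 ≤ H * Q := by nlinarith
  set Z := H * Q with hZd
  have hZ0 : 0 < Z := by linarith
  obtain ⟨T⟩ := exists_sys Q (by linarith)
  set D : ℕ := ⌊K0 * (792 * Z ^ 4) ^ d⌋₊ with hDdef
  have hD : ∀ n : ℕ, 1 ≤ n → (n : ℝ) ≤ 792 * (H * Q) ^ 4 → n.divisors.card ≤ D := by
    intro n hn hn2
    apply Nat.le_floor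
    refine (hK n hn).trans ?_
    gcongr
  have hDle : (D : ℝ) ≤ (K0 * 792 ^ d) * Z ^ (4 * d) := by
    refine (Nat.floor_le (by positivity)).trans (le_of_eq ?_)
    rw [Real.mul_rpow (by norm_num) (by positivity), ← Real.rpow_natCast Z 4, ← Real.rpow_mul hZ0.le]
    push_cast
    ring
  set J : ℕ := ⌊(132 * Z) ^ d / d⌋₊ + 1 with hJdef
  have hJle : (J : ℝ) ≤ (132 ^ d / d + 1) * Z ^ d := by
    rw [hJdef]
    push_cast
    have h1 := Nat.floor_le (by positivity : 0 ≤ (132 * Z) ^ d / d)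
    have h2 : (132 * Z) ^ d / d = 132 ^ d / d * Z ^ d := by
      rw [Real.mul_rpow (by norm_num) hZ0.le]; ring
    have h3 : 1 ≤ Z ^ d := Real.one_le_rpow (by linarith) hd0.le
    rw [add_mul, ← h2]
    linarith
  have hJ1 : (1 : ℝ) ≤ J := by
    rw [hJdef]; push_cast
    have : (0 : ℝ) ≤ ⌊(132 * Z) ^ d / d⌋₊ := by positivity
    linarith
  set S0 := S.filter (fun e => G0 e.1 e.2 (T.p e.1) (T.q e.1) = 0) with hS0
  set S1 := S.filter (fun e => G0 e.1 e.2 (T.p e.1) (T.q e.1) * (T.q' e.1) ^ 4 = 1) with hS1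
  set S2 : ℕ → Finset (ℤ × ℤ) := fun j => S.filter (fun e => T.j e.1 = j ∧
    G0 e.1 e.2 (T.p e.1) (T.q e.1) ≠ 0 ∧
    G0 e.1 e.2 (T.p e.1) (T.q e.1) * (T.q' e.1) ^ 4 ≠ 1) with hS2
  have hcover : S ⊆ (S0 ∪ S1) ∪ (range J).biUnion S2 := by
    intro e he
    rw [mem_union, mem_union]
    by_cases h0 : G0 e.1 e.2 (T.p e.1) (T.q e.1) = 0
    · left; left
      exact mem_filter.mpr ⟨he, h0⟩
    · by_cases h1 : G0 e.1 e.2 (T.p e.1) (T.q e.1) * (T.q' e.1) ^ 4 = 1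
      · left; right
        exact mem_filter.mpr ⟨he, h1⟩
      · right
        rw [mem_biUnion]
        refine ⟨T.j e.1, ?_, mem_filter.mpr ⟨he, rfl, h0, h1⟩⟩
        rw [mem_range, hJdef]
        have h9 : T.j e.1 ≤ ⌊(132 * Z) ^ d / d⌋₊ := Nat.le_floor (j_bound hp T d hd0 (hS e he) h0)
        omega
  have c0 : (S0.card : ℝ) ≤ 16 * Z * D :=
    case0 hp T D hD S0 (fun e he => hS e (mem_filter.mp he).1) (fun e he => (mem_filter.mp he).2)
  have c1 : (S1.card : ℝ) ≤ 140450 * C * Z * D :=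
    case1 hp T D hD S1 (fun e he => hS e (mem_filter.mp he).1) (fun e he => (mem_filter.mp he).2)
  have c2 : ∀ j, ((S2 j).card : ℝ) ≤ (10 : ℝ) ^ 14 * C ^ 2 * Z * D := fun j =>
    case2 hp T D hD j (S2 j) (fun e he => hS e (mem_filter.mp he).1)
      (fun e he => (mem_filter.mp he).2.1) (fun e he => (mem_filter.mp he).2.2.1)
      (fun e he => (mem_filter.mp he).2.2.2)
  have hsum : (((range J).biUnion S2).card : ℝ) ≤ J * ((10 : ℝ) ^ 14 * C ^ 2 * Z * D) := by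
    calc (((range J).biUnion S2).card : ℝ) ≤ ∑ j ∈ range J, ((S2 j).card : ℝ) := by
          exact_mod_cast card_biUnion_le
      _ ≤ ∑ _j ∈ range J, ((10 : ℝ) ^ 14 * C ^ 2 * Z * D) := sum_le_sum (fun j _ => c2 j)
      _ = J * ((10 : ℝ) ^ 14 * C ^ 2 * Z * D) := by rw [sum_const, card_range, nsmul_eq_mul]
  have hD0 : (0 : ℝ) ≤ D := by positivity
  have htot : (S.card : ℝ) ≤ (2 * 10 ^ 14 * C ^ 2) * Z * D * J := by
    have h1 : (S.card : ℝ) ≤ S0.card + S1.card + ((range J).biUnion S2).card := by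
      have h2 := card_le_card hcover
      have h3 := card_union_le (S0 ∪ S1) ((range J).biUnion S2)
      have h4 := card_union_le S0 S1
      have : S.card ≤ S0.card + S1.card + ((range J).biUnion S2).card := by omega
      exact_mod_cast this
    have hC2 : C ≤ C ^ 2 := by nlinarith
    have hZD : 0 ≤ Z * D := by positivity
    have h5 : 16 * Z * D ≤ 16 * C ^ 2 * (Z * D) * J := by
      have : (1:ℝ) ≤ C ^ 2 * J := by nlinarith
      nlinarith
    have h6 : 140450 * C * Z * D ≤ 140450 * C ^ 2 * (Z * D) * J := by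
      have : C ≤ C ^ 2 * J := by nlinarith
      nlinarith
    have h7 : 0 ≤ C ^ 2 * (Z * D) * J := by positivity
    nlinarith
  refine htot.trans ?_
  calc (2 * 10 ^ 14 * C ^ 2) * Z * D * J
      ≤ (2 * 10 ^ 14 * C ^ 2) * Z * ((K0 * 792 ^ d) * Z ^ (4 * d)) * ((132 ^ d / d + 1) * Z ^ d) := by
        gcongr
    _ = (2 * 10 ^ 14 * C ^ 2) * (K0 * 792 ^ d) * (132 ^ d / d + 1) *
        (Z ^ (1 : ℝ) * Z ^ (4 * d) * Z ^ d) := by rw [Real.rpow_one]; ring
    _ = (2 * 10 ^ 14 * C ^ 2) * (K0 * 792 ^ d) * (132 ^ d / d + 1) * Z ^ (1 + eps) := by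
        rw [← Real.rpow_add hZ0, ← Real.rpow_add hZ0]
        congr 2
        rw [hd]; ring

end Pool.Agent.H925R.Hall
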