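import Mathlib

set_option autoImplicit false

open UpperHalfPlane Matrix MatrixGroups ModularGroup

namespace Pool.Agent.H925R.Hall

theorem reduce1 (s Q : ℝ) (hQ : 0 < Q) : ∃ p q p' q' : ℤ, ∃ T : ℝ, 0 < T ∧ 3 ≤ 4 * T ^ 2 ∧
    p * q' - p' * q = 1 ∧ T * ((Q * (p - q * s)) ^ 2 + (q / Q) ^ 2) = 1 ∧
    (Q * (p' - q' * s)) ^ 2 + (q' / Q) ^ 2 ≤ 4 / 3 * T := by
  have heta : 0 < 1 / Q ^ 2 := by positivity
  set z : ℍ := ⟨⟨s, 1 / Q ^ 2⟩, heta⟩ with hz
  obtain ⟨g, hg⟩ := exists_smul_mem_fd z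
  have hT := three_le_four_mul_im_sq_of_mem_fd hg
  have hT0 : 0 < (g • z).im := (g • z).im_pos
  have hw := UpperHalfPlane.coe_specialLinearGroup_apply g z
  have hden : ((g 1 0 : ℤ) : ℂ) * (z : ℂ) + ((g 1 1 : ℤ) : ℂ) ≠ 0 := by
    intro h0
    have h1 := congrArg Complex.re h0
    have h2 := congrArg Complex.im h0
    simp at h1 h2
    have hc : (g 1 0) = 0 := by
      rcases h2 with h2 | h2
      · exact_mod_cast h2
      · exact absurd h2 z.im_pos.ne'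
    have hdet := g.det_coe
    rw [Matrix.det_fin_two] at hdet
    rw [hc] at h1 hdet
    have hd : (g 1 1) = 0 := by
      simpa using h1
    rw [hd] at hdet
    simp at hdet
  have hw2 : ((g • z : ℍ) : ℂ) * (((g 1 0 : ℤ) : ℂ) * (z : ℂ) + ((g 1 1 : ℤ) : ℂ)) =
      ((g 0 0 : ℤ) : ℂ) * (z : ℂ) + ((g 0 1 : ℤ) : ℂ) := by
    rw [hw]
    simp only [algebraMap_int_eq, eq_intCast, Complex.ofReal_intCast]
    exact div_mul_cancel₀ _ hden
  have hre := congrArg Complex.re hw2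
  have him := congrArg Complex.im hw2
  have hzi : (z : ℂ).im = 1 / Q ^ 2 := rfl
  have hzr : (z : ℂ).re = s := rfl
  have hwi : ((g • z : ℍ) : ℂ).im = (g • z).im := rfl
  have hwr : ((g • z : ℍ) : ℂ).re = (g • z).re := rfl
  simp only [Complex.mul_re, Complex.mul_im, Complex.add_re, Complex.add_im, Complex.intCast_re,
    Complex.intCast_im, hzi, hzr, hwi, hwr, zero_mul, sub_zero, add_zero]
    at hre him
  have hdet := g.det_coe
  rw [Matrix.det_fin_two] at hdet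
  have hreb : (g • z).re ^ 2 ≤ 1 / 4 := by
    have := hg.2
    have h3 : |(g • z).re| ≤ 1 / 2 := this
    have := abs_le.mp h3
    nlinarith
  set a := g 0 0 with ha
  set b := g 0 1 with hb
  set c := g 1 0 with hc
  set d := g 1 1 with hd
  set u := (g • z).re with hu
  set T := (g • z).im with hT'
  have hdetR : (a : ℝ) * d - b * c = 1 := by exact_mod_cast hdet
  refine ⟨d, -c, -b, a, T, hT0, by linarith, by linarith, ?_, ?_⟩
  · have h1 : T * (((d : ℝ) + c * s) ^ 2 + (c * (1 / Q ^ 2)) ^ 2) = 1 / Q ^ 2 := by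
      linear_combination (d + c * s) * him - (c * (1 / Q ^ 2)) * hre + (1 / Q ^ 2) * hdetR
    push_cast
    have h2 : T * ((Q * ((d : ℝ) - -c * s)) ^ 2 + (-c / Q) ^ 2) =
        Q ^ 2 * (T * (((d : ℝ) + c * s) ^ 2 + (c * (1 / Q ^ 2)) ^ 2)) := by
      field_simp
      ring
    rw [h2, h1]
    field_simp
  · have h1 : T * (((d : ℝ) + c * s) ^ 2 + (c * (1 / Q ^ 2)) ^ 2) = 1 / Q ^ 2 := by
      linear_combination (d + c * s) * him - (c * (1 / Q ^ 2)) * hre + (1 / Q ^ 2) * hdetR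
    have h3 : (u ^ 2 + T ^ 2) * (((d : ℝ) + c * s) ^ 2 + (c * (1 / Q ^ 2)) ^ 2) =
        (a * s + b) ^ 2 + (a * (1 / Q ^ 2)) ^ 2 := by
      rw [← hre, ← him]
      ring
    push_cast
    have h4 : (Q * (-(b : ℝ) - a * s)) ^ 2 + (a / Q) ^ 2 =
        Q ^ 2 * ((a * s + b) ^ 2 + (a * (1 / Q ^ 2)) ^ 2) := by
      field_simp
      ring
    rw [h4, ← h3]
    have h5 : ((d : ℝ) + c * s) ^ 2 + (c * (1 / Q ^ 2)) ^ 2 = 1 / Q ^ 2 / T := by
      rw [eq_div_iff hT0.ne', mul_comm]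
      exact h1
    rw [h5]
    have h6 : Q ^ 2 * ((u ^ 2 + T ^ 2) * (1 / Q ^ 2 / T)) = (u ^ 2 + T ^ 2) / T := by
      field_simp
    rw [h6, div_le_iff₀ hT0]
    nlinarith

/-- the scale attached to `j` -/
noncomputable def lam (j : ℕ) : ℝ := √((2 : ℝ) ^ j / 2)

theorem lam_sq (j : ℕ) : lam j ^ 2 = (2 : ℝ) ^ j / 2 := Real.sq_sqrt (by positivity)

theorem lam_pos (j : ℕ) : 0 < lam j := Real.sqrt_pos.mpr (by positivity)

theorem lam_sq_ge (j : ℕ) : 1 / 2 ≤ lam j ^ 2 := by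
  rw [lam_sq]
  have : (1 : ℝ) ≤ 2 ^ j := one_le_pow₀ (by norm_num)
  linarith

/-- reduced basis data at scale `l` -/
structure Red (s Q l : ℝ) (p q p' q' : ℤ) : Prop where
  det : p * q' - p' * q = 1
  h1 : |(p : ℝ) - q * s| ≤ 1 / (l * Q)
  h2 : |(q : ℝ)| ≤ Q / l
  h3 : |(p' : ℝ) - q' * s| ≤ 2 * l / Q
  h4 : |(q' : ℝ)| ≤ 2 * l * Q

theorem reduce2 (s Q : ℝ) (hQ : 0 < Q) : ∃ p q p' q' : ℤ, ∃ j : ℕ, 0 ≤ q ∧
    Red s Q (lam j) p q p' q' := by
  obtain ⟨p, q, p', q', T, hT, hT2, hdet, hN1, hN2⟩ := reduce1 s Q hQ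
  have h2T : (1 : ℝ) ≤ 2 * T := by nlinarith
  obtain ⟨j, hj1, hj2⟩ := exists_nat_pow_near h2T (one_lt_two)
  have hl := lam_pos j
  have hl2 := lam_sq j
  have hA : lam j ^ 2 ≤ T := by rw [hl2]; linarith
  have hB : T ≤ 2 * lam j ^ 2 := by rw [hl2]; rw [pow_succ] at hj2; linarith
  have key : Red s Q (lam j) p q p' q' := by
    have e1 : (lam j * (Q * (p - q * s))) ^ 2 ≤ 1 := by
      have h0 : 0 ≤ (q / Q : ℝ) ^ 2 := by positivity
      have h0' : 0 ≤ (Q * (p - q * s) : ℝ) ^ 2 := by positivity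
      calc (lam j * (Q * (p - q * s))) ^ 2 = lam j ^ 2 * (Q * (p - q * s)) ^ 2 := by ring
        _ ≤ T * (Q * (p - q * s)) ^ 2 := by gcongr
        _ ≤ T * ((Q * (p - q * s)) ^ 2 + (q / Q) ^ 2) := by nlinarith
        _ = 1 := hN1
    have e2 : (lam j * (q / Q)) ^ 2 ≤ 1 := by
      have h0 : 0 ≤ (q / Q : ℝ) ^ 2 := by positivity
      have h0' : 0 ≤ (Q * (p - q * s) : ℝ) ^ 2 := by positivity
      calc (lam j * (q / Q)) ^ 2 = lam j ^ 2 * (q / Q) ^ 2 := by ring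
        _ ≤ T * (q / Q) ^ 2 := by gcongr
        _ ≤ T * ((Q * (p - q * s)) ^ 2 + (q / Q) ^ 2) := by nlinarith
        _ = 1 := hN1
    have e3 : (Q * (p' - q' * s)) ^ 2 ≤ (2 * lam j) ^ 2 := by
      have h0 : 0 ≤ (q' / Q : ℝ) ^ 2 := by positivity
      nlinarith
    have e4 : (q' / Q : ℝ) ^ 2 ≤ (2 * lam j) ^ 2 := by
      have h0' : 0 ≤ (Q * (p' - q' * s) : ℝ) ^ 2 := by positivity
      nlinarith
    refine ⟨hdet, ?_, ?_, ?_, ?_⟩
    · have := abs_le_of_sq_le_sq' (a := lam j * (Q * (p - q * s))) (b := 1) (by simpa using e1) one_pos.le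
      have h5 : |lam j * (Q * (p - q * s))| ≤ 1 := abs_le.mpr this
      rw [le_div_iff₀ (by positivity)]
      rw [abs_mul, abs_mul, abs_of_pos hl, abs_of_pos hQ] at h5
      linarith
    · have := abs_le_of_sq_le_sq' (a := lam j * (q / Q)) (b := 1) (by simpa using e2) one_pos.le
      have h5 : |lam j * (q / Q)| ≤ 1 := abs_le.mpr this
      rw [abs_mul, abs_div, abs_of_pos hl, abs_of_pos hQ] at h5
      rw [le_div_iff₀ hl]
      have h6 : lam j * (|(q : ℝ)| / Q) * Q ≤ 1 * Q := by gcongr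
      have h7 : lam j * (|(q : ℝ)| / Q) * Q = |(q : ℝ)| * lam j := by field_simp
      linarith
    · have := abs_le_of_sq_le_sq' e3 (by positivity)
      have h5 : |Q * (p' - q' * s)| ≤ 2 * lam j := abs_le.mpr this
      rw [abs_mul, abs_of_pos hQ] at h5
      rw [le_div_iff₀ hQ]
      linarith
    · have := abs_le_of_sq_le_sq' e4 (by positivity)
      have h5 : |(q' : ℝ) / Q| ≤ 2 * lam j := abs_le.mpr this
      rw [abs_div, abs_of_pos hQ, div_le_iff₀ hQ] at h5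
      exact h5
  rcases le_total 0 q with h | h
  · exact ⟨p, q, p', q', j, h, key⟩
  · refine ⟨-p, -q, -p', -q', j, by omega, ?_⟩
    obtain ⟨k0, k1, k2, k3, k4⟩ := key
    refine ⟨by linarith, ?_, ?_, ?_, ?_⟩
    · push_cast
      rw [show (-(p : ℝ) - -q * s) = -(p - q * s) by ring, abs_neg]; exact k1
    · push_cast
      rw [abs_neg]; exact k2
    · push_cast
      rw [show (-(p' : ℝ) - -q' * s) = -(p' - q' * s) by ring, abs_neg]; exact k3
    · push_cast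
      rw [abs_neg]; exact k4

end Pool.Agent.H925R.Hall
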